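import Mathlib
import Pool.Agent.H964.CW.Stm2

/-! # Project CW: stretched exponential tail of the badness after a block -/

set_option autoImplicit false

open MeasureTheory ProbabilityTheory Filter Finset

namespace Pool.Agent.H357.CW

open Pool.Agent.H964.QC Pool.Agent.H964.CW

theorem wl3_exp (K : ℝ) (hK : 1 ≤ K) : ∃ R0 : ℝ, 1 ≤ R0 ∧ ∀ R, R0 ≤ R →
    K * Real.exp (√R) * R ^ 22 ≤ Real.exp (R - 1 / 2) := by
  have h := Real.tendsto_pow_mul_exp_neg_atTop_nhds_zero 22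
  have hε : (0 : ℝ) < 1 / (K * 4 ^ 22) := by positivity
  obtain ⟨x0, hx0⟩ := eventually_atTop.1 (h.eventually_le_const hε)
  refine ⟨max (max 16 (4 * x0)) 1, le_max_right _ _, fun R hR => ?_⟩
  have h16 : 16 ≤ R := (le_max_left _ _).trans ((le_max_left _ _).trans hR)
  have hx : x0 ≤ R / 4 := by
    have := (le_max_right 16 (4 * x0)).trans ((le_max_left _ _).trans hR)
    linarith
  have h1 := hx0 _ hx
  have h2 : (R / 4) ^ 22 ≤ 1 / (K * 4 ^ 22) * Real.exp (R / 4) := by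
    rw [Real.exp_neg] at h1
    have := mul_le_mul_of_nonneg_right h1 (Real.exp_pos (R / 4)).le
    rwa [mul_assoc, inv_mul_cancel₀ (Real.exp_pos _).ne', mul_one] at this
  have h3 : K * R ^ 22 ≤ Real.exp (R / 4) := by
    have e : K * R ^ 22 = K * 4 ^ 22 * (R / 4) ^ 22 := by
      rw [div_pow]
      field_simp
    rw [e]
    calc K * 4 ^ 22 * (R / 4) ^ 22 ≤ K * 4 ^ 22 * (1 / (K * 4 ^ 22) * Real.exp (R / 4)) :=
          mul_le_mul_of_nonneg_left h2 (by positivity)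
      _ = Real.exp (R / 4) := by field_simp
  have h4 : √R ≤ R / 4 := by
    rw [Real.sqrt_le_left (by linarith)]
    nlinarith
  calc K * Real.exp (√R) * R ^ 22 = Real.exp (√R) * (K * R ^ 22) := by ring
    _ ≤ Real.exp (R / 4) * Real.exp (R / 4) :=
        mul_le_mul (Real.exp_le_exp.2 h4) h3 (by positivity) (Real.exp_pos _).le
    _ = Real.exp (R / 2) := by rw [← Real.exp_add]; congr 1; ring
    _ ≤ Real.exp (R - 1 / 2) := Real.exp_le_exp.2 (by linarith)

theorem wl3_sum (C : ℝ) (hC : 1 ≤ C) : ∃ b0 : ℝ, 1 ≤ b0 ∧ ∀ b, b0 ≤ b →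
    C * Real.exp (-(b / 2)) + Real.exp (-((b / 4) ^ (1 / 10 : ℝ))) ≤
      Real.exp (-(b ^ (1 / 20 : ℝ))) := by
  set β0 : ℝ := max 4 (Real.log (C + 1)) with hβ0
  refine ⟨β0 ^ 20, one_le_pow₀ (le_trans (by norm_num) (le_max_left _ _)), fun b hb => ?_⟩
  have hβ4 : 4 ≤ β0 := le_max_left _ _
  have hb0 : 0 ≤ b := le_trans (by positivity) hb
  set β : ℝ := b ^ (1 / 20 : ℝ) with hβ
  have hβb : β ^ 20 = b := by
    rw [hβ, ← Real.rpow_natCast, ← Real.rpow_mul hb0]
    norm_num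
  have hββ : β0 ≤ β := by
    have h : (β0 ^ 20) ^ (1 / 20 : ℝ) ≤ b ^ (1 / 20 : ℝ) :=
      Real.rpow_le_rpow (by positivity) hb (by norm_num)
    rwa [← Real.rpow_natCast, ← Real.rpow_mul (by linarith),
      show ((20 : ℕ) : ℝ) * (1 / 20 : ℝ) = 1 by norm_num, Real.rpow_one] at h
  have hβ1 : 4 ≤ β := hβ4.trans hββ
  have hlog : Real.log (C + 1) ≤ β := (le_max_right _ _).trans hββ
  have hten : β ^ 2 / 2 ≤ (b / 4) ^ (1 / 10 : ℝ) := by
    have e1 : (b / 4) ^ (1 / 10 : ℝ) = b ^ (1 / 10 : ℝ) / 4 ^ (1 / 10 : ℝ) :=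
      Real.div_rpow hb0 (by norm_num) _
    have e2 : b ^ (1 / 10 : ℝ) = β ^ 2 := by
      rw [hβ, ← Real.rpow_natCast, ← Real.rpow_mul hb0]
      norm_num
    have e3 : (4 : ℝ) ^ (1 / 10 : ℝ) ≤ 2 := by
      calc (4 : ℝ) ^ (1 / 10 : ℝ) ≤ 4 ^ (1 / 2 : ℝ) :=
            Real.rpow_le_rpow_of_exponent_le (by norm_num) (by norm_num)
        _ = 2 := by
            rw [show (4 : ℝ) = 2 ^ (2 : ℝ) by norm_num, ← Real.rpow_mul (by norm_num)]
            norm_num
    rw [e1, e2]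
    exact div_le_div_of_nonneg_left (by positivity) (by positivity) e3
  have hhalf : β ^ 2 / 2 ≤ b / 2 := by
    rw [← hβb]
    have : β ^ 2 ≤ β ^ 20 := pow_le_pow_right₀ (by linarith) (by norm_num)
    linarith
  calc C * Real.exp (-(b / 2)) + Real.exp (-((b / 4) ^ (1 / 10 : ℝ)))
      ≤ C * Real.exp (-(β ^ 2 / 2)) + Real.exp (-(β ^ 2 / 2)) := by
        refine add_le_add (mul_le_mul_of_nonneg_left (Real.exp_le_exp.2 (by linarith))
          (by linarith)) (Real.exp_le_exp.2 (by linarith))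
    _ = (C + 1) * Real.exp (-(β ^ 2 / 2)) := by ring
    _ = Real.exp (Real.log (C + 1) + -(β ^ 2 / 2)) := by
        rw [Real.exp_add, Real.exp_log (by linarith)]
    _ ≤ Real.exp (-β) := by
        refine Real.exp_le_exp.2 ?_
        nlinarith

theorem e0_pos : 0 < e0 := by
  unfold e0
  positivity

theorem e0_le : 2 * e0 ≤ 1 / 40 := by
  unfold e0
  norm_num

theorem t_WL3 : S_WL3 := by
  intro hLTB hMEAS hDUAL hRR hOV hGS hBC2 hCLN hM2 C0 κ c hC0 hκ hc0 hc1
  obtain ⟨K, hK1, hK⟩ := hLTB C0 0 hC0 le_rfl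
  obtain ⟨CG, hCG1, hCG⟩ := hGS C0 hC0
  obtain ⟨CB, hCB1, hCB⟩ := hBC2 hRR hOV hCLN hMEAS hM2 hDUAL C0 κ hC0 hκ
  obtain ⟨R0, hR01, hR0⟩ := wl3_exp K hK1
  obtain ⟨b0, hb01, hb0⟩ := wl3_sum CB hCB1
  obtain ⟨hr1, hr2, hr3, hr4, hr5, hr6, hr7⟩ := hRR
  have hcpos : 0 < c := lt_of_lt_of_le e0_pos hc0
  have ev1 : ∀ᶠ L : ℝ in atTop, 6 + 2 * CG ≤ L ^ (1 / 2 : ℝ) :=
    (tendsto_rpow_atTop (by norm_num)).eventually_ge_atTop _
  have ev2 : ∀ᶠ L : ℝ in atTop, 16 * (K * 15 ^ 8) ≤ L ^ (4 * c) :=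
    (tendsto_rpow_atTop (by positivity)).eventually_ge_atTop _
  have ev3 : ∀ᶠ L : ℝ in atTop, R0 ≤ L ^ (1 / 20 : ℝ) :=
    (tendsto_rpow_atTop (by norm_num)).eventually_ge_atTop _
  have ev4 : ∀ᶠ L : ℝ in atTop, 4 * b0 ≤ L ^ (20 * c) :=
    (tendsto_rpow_atTop (by positivity)).eventually_ge_atTop _
  obtain ⟨L1, hev⟩ := eventually_atTop.1 (ev1.and (ev2.and (ev3.and ev4)))
  refine ⟨max (max L1 CB) (max K 1), (le_max_right _ _).trans (le_max_right _ _), ?_⟩
  intro N0 M _ W hW Ω _ P _ s2 η w t T L L' b hs2 hη hL hL' hL0 hRt hl1 hl2 hN hG hb1 hb2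
  have hLL1 : L1 ≤ L' := (le_max_left _ _).trans ((le_max_left _ _).trans hL0)
  have hLCB : CB ≤ L' := (le_max_right _ _).trans ((le_max_left _ _).trans hL0)
  have hLK : K ≤ L' := (le_max_left _ _).trans ((le_max_right _ _).trans hL0)
  have hL1' : 1 ≤ L' := (le_max_right _ _).trans ((le_max_right _ _).trans hL0)
  -- basic facts
  have hRt0 : 0 < RR t := lt_of_lt_of_le (by positivity) hRt
  have ht : 1 ≤ t := by
    rcases Nat.eq_zero_or_pos t with h | h
    · subst h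
      simp [RR] at hRt0
    · exact h
  have htR : (1 : ℝ) ≤ t := by exact_mod_cast ht
  have hTR : (0 : ℝ) ≤ T := Nat.cast_nonneg _
  have hlog4 := hr6 t (t + T) (by omega)
  have hlog2 := hr5 t (t + T) ht (by omega)
  have hlnn : RR t ≤ RR (t + T) := by
    have h2 : 0 ≤ Real.log ((((t + T : ℕ) : ℝ) + 1) / ((t : ℝ) + 1)) := by
      refine Real.log_nonneg ?_
      rw [one_le_div (by positivity)]
      push_cast
      linarith
    linarith
  have hLL' : L' ≤ L := by rw [hL, hL']; linarith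
  have hL1 : 1 ≤ L := hL1'.trans hLL'
  obtain ⟨e1, e2, e3, e4⟩ := hev L (hLL1.trans hLL')
  set l : ℝ := RR (t + T) - RR t with hl
  set A : ℝ := L ^ c with hA
  have hA1 : 1 ≤ A := Real.one_le_rpow hL1 hcpos.le
  have hE1 : 1 ≤ L ^ (2 * e0) := Real.one_le_rpow hL1 (by linarith [e0_pos])
  have hE2 : L ^ (2 * e0) ≤ L ^ (2 * c) :=
    Real.rpow_le_rpow_of_exponent_le hL1 (by linarith)
  have hA2 : A ≤ L ^ (2 * c) := Real.rpow_le_rpow_of_exponent_le hL1 (by linarith)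
  have hX1 : 1 ≤ L ^ (2 * c) := hA1.trans hA2
  -- the ratio
  have hratio : Real.exp A * t ≤ (t + T : ℕ) := by
    have h1 : 2 * A ≤ Real.log (((t + T : ℕ) : ℝ) / t) := by linarith
    have h2 : Real.exp (2 * A) ≤ ((t + T : ℕ) : ℝ) / t := by
      have h3 : (0 : ℝ) < ((t + T : ℕ) : ℝ) / t := by
        push_cast
        positivity
      rw [← Real.exp_log h3]
      exact Real.exp_le_exp.2 h1
    rw [le_div_iff₀ (by linarith)] at h2
    refine le_trans ?_ h2
    exact mul_le_mul_of_nonneg_right (Real.exp_le_exp.2 (by linarith)) (by linarith)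
  have htT : t ≤ T := by
    by_contra hcon
    rw [not_le] at hcon
    have h1 : (2 : ℝ) * t ≤ Real.exp A * t := by
      refine mul_le_mul_of_nonneg_right ?_ (by linarith)
      have := Real.add_one_le_exp A
      linarith
    have h2 : (2 : ℝ) * t ≤ (t + T : ℕ) := h1.trans hratio
    have h3 : 2 * t ≤ t + T := by exact_mod_cast h2
    omega
  have hT1 : 1 ≤ T := ht.trans htT
  have hN' : t + T ≤ N0 := by omega
  -- the sum of the overlaps
  have hsum : ∑ m ∈ Finset.Icc 1 T, ov W w m ≤ L' := by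
    have h1 := (hCG (ZMod M × ZMod M) N0 W w t T (Real.exp A) ht (Real.one_le_exp (by linarith))
      hN' hG).1
    rw [Real.log_exp] at h1
    have h2 : L' = L - l := by rw [hL, hL', hl]; ring
    set H : ℝ := L ^ (1 / 2 : ℝ) with hH
    have hH1 : 1 ≤ H := Real.one_le_rpow hL1 (by norm_num)
    have hHL : H * H = L := by
      rw [hH, ← Real.rpow_add (by linarith)]
      norm_num
    have hAH : A ≤ H := Real.rpow_le_rpow_of_exponent_le hL1 (by linarith)
    have hEH : L ^ (2 * e0) ≤ H :=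
      Real.rpow_le_rpow_of_exponent_le hL1 (by linarith [e0_le])
    have h3 : CG * (1 + A) ≤ CG * (2 * H) := mul_le_mul_of_nonneg_left (by linarith) (by linarith)
    have h4 : (6 + 2 * CG) * H ≤ H * H := mul_le_mul_of_nonneg_right e1 (by linarith)
    nlinarith
  -- positivity of b
  have hbb : b0 ≤ b := by linarith
  have hb1' : 1 ≤ b := hb01.trans hbb
  -- the block lemma
  have hmain := hCB (ZMod M × ZMod M) N0 W Ω P s2 η w t T L' (Real.exp b) (Real.exp (-(b / 4)))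
    hs2 hη.1 hT1 htT hN hL' hLCB (Real.one_le_exp (by linarith)) (Real.exp_pos _)
    (Real.exp_le_one_iff.2 (by linarith)) hG.nonneg hG.sum hG.cls
    (hG.spread.trans hratio) hsum
  have hq : CB / (Real.exp b * Real.exp (-(b / 4)) ^ 2) = CB * Real.exp (-(b / 2)) := by
    rw [← Real.exp_nat_mul, ← Real.exp_add, div_eq_mul_inv, ← Real.exp_neg]
    congr 2
    push_cast
    ring
  rw [hq] at hmain
  refine le_trans (le_trans hmain ?_) (hb0 b hbb)
  refine add_le_add le_rfl ?_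
  -- the lower tail
  have hlogB : Real.log (1 + (T : ℝ) / t) ≤ 1 + 4 * l := by
    have h1 : 1 + (T : ℝ) / t ≤ 2 * ((((t + T : ℕ) : ℝ) + 1) / ((t : ℝ) + 1)) := by
      push_cast
      rw [mul_div_assoc', one_add_div (by positivity), div_le_div_iff₀ (by positivity) (by positivity)]
      nlinarith
    have h2 : (0 : ℝ) < (((t + T : ℕ) : ℝ) + 1) / ((t : ℝ) + 1) := by positivity
    calc Real.log (1 + (T : ℝ) / t) ≤ Real.log (2 * ((((t + T : ℕ) : ℝ) + 1) / ((t : ℝ) + 1))) :=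
          Real.log_le_log (by positivity) h1
      _ = Real.log 2 + Real.log ((((t + T : ℕ) : ℝ) + 1) / ((t : ℝ) + 1)) :=
          Real.log_mul (by norm_num) h2.ne'
      _ ≤ 1 + 4 * l := by
          have := Real.log_two_lt_d9
          linarith
  have hu1 : K * (1 + Real.log (Real.exp A) + Real.log (1 + (T : ℝ) / t)) ^ 8 ≤ b / 4 := by
    rw [Real.log_exp]
    have h0 : 0 ≤ Real.log (1 + (T : ℝ) / t) := Real.log_nonneg (by
      have : (0 : ℝ) ≤ (T : ℝ) / t := by positivity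
      linarith)
    have h1 : 1 + A + Real.log (1 + (T : ℝ) / t) ≤ 15 * L ^ (2 * c) := by linarith
    have h2 : (1 + A + Real.log (1 + (T : ℝ) / t)) ^ 8 ≤ (15 * L ^ (2 * c)) ^ 8 :=
      pow_le_pow_left₀ (by linarith) h1 8
    have h3 : (L ^ (2 * c)) ^ 8 = L ^ (16 * c) := by
      rw [← Real.rpow_natCast, ← Real.rpow_mul (by linarith)]
      congr 1
      push_cast
      ring
    have h4 : L ^ (4 * c) * L ^ (16 * c) = L ^ (20 * c) := by
      rw [← Real.rpow_add (by linarith)]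
      congr 1
      ring
    have h5 : 16 * (K * 15 ^ 8) * L ^ (16 * c) ≤ L ^ (20 * c) := by
      rw [← h4]
      exact mul_le_mul_of_nonneg_right e2 (by positivity)
    calc K * (1 + A + Real.log (1 + (T : ℝ) / t)) ^ 8 ≤ K * (15 * L ^ (2 * c)) ^ 8 :=
          mul_le_mul_of_nonneg_left h2 (by linarith)
      _ = K * 15 ^ 8 * L ^ (16 * c) := by rw [mul_pow, h3]; ring
      _ ≤ b / 4 := by linarith
  have hs2inv : 1 / s2 ≤ RR t ^ 20 := by
    have h1 : ((1 / s2) ^ (1 / 20 : ℝ)) ^ 20 ≤ RR t ^ 20 := pow_le_pow_left₀ (by positivity) hRt 20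
    rwa [← Real.rpow_natCast, ← Real.rpow_mul (by positivity),
      show (1 / 20 : ℝ) * ((20 : ℕ) : ℝ) = 1 by norm_num, Real.rpow_one] at h1
  have hLs : L ≤ 1 / s2 := by rw [hL]; linarith
  have hRbig : R0 ≤ RR t := by
    refine e3.trans (le_trans ?_ hRt)
    exact Real.rpow_le_rpow (by linarith) hLs (by norm_num)
  have hAR : A ≤ √(RR t) := by
    have h1 : A ≤ L ^ (1 / 40 : ℝ) := Real.rpow_le_rpow_of_exponent_le hL1 hc1
    have h2 : L ^ (1 / 40 : ℝ) ≤ (1 / s2) ^ (1 / 40 : ℝ) :=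
      Real.rpow_le_rpow (by linarith) hLs (by norm_num)
    refine h1.trans (h2.trans ?_)
    refine Real.le_sqrt_of_sq_le ?_
    rw [← Real.rpow_natCast, ← Real.rpow_mul (by positivity)]
    refine le_trans (le_of_eq ?_) hRt
    norm_num
  have hu2 : K * Real.exp A * (b / 4) ^ 2 / s2 ≤ Real.sqrt t := by
    have h1 : Real.exp (RR t - 1 / 2) ≤ Real.sqrt t := by
      have h2 := hr7 t ht
      rw [Real.sqrt_eq_rpow, Real.rpow_def_of_pos (by linarith)]
      exact Real.exp_le_exp.2 (by linarith)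
    refine le_trans ?_ ((hR0 _ hRbig).trans h1)
    have h3 : (b / 4) ^ 2 ≤ RR t ^ 2 := pow_le_pow_left₀ (by linarith) (by linarith) 2
    calc K * Real.exp A * (b / 4) ^ 2 / s2 = K * Real.exp A * ((b / 4) ^ 2 * (1 / s2)) := by ring
      _ ≤ K * Real.exp (√(RR t)) * (RR t ^ 2 * RR t ^ 20) := by
          refine mul_le_mul (mul_le_mul_of_nonneg_left (Real.exp_le_exp.2 hAR) (by linarith))
            (mul_le_mul h3 hs2inv (by positivity) (by positivity)) (by positivity) (by positivity)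
      _ = K * Real.exp (√(RR t)) * RR t ^ 22 := by ring
  have hs2K : s2 ≤ 1 / K := by
    have h1 : K ≤ 1 / s2 := hLK.trans (hLL'.trans hLs)
    rw [le_div_iff₀ hs2] at h1
    rw [le_div_iff₀ (by linarith)]
    linarith
  have hfin := hK N0 M W hW Ω P s2 κ η w t T (Real.exp A) (b / 4) hs2 hs2K hη.1 ht
    (Real.one_le_exp (by linarith)) hN' hG (by rw [← hL']; linarith) hu1 hu2
  refine le_trans (le_of_eq ?_) hfin
  congr 1
  ext ω
  have h1 := (hDUAL (ZMod M × ZMod M) C0 N0 W (cfg η ω) w T T).2.2.1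
  simp only [Set.mem_ofPred_eq]
  rw [h1, hG.sum]
  have h2 : 1 + ((∑ z, w z * Zr W (cfg η ω) T z) - 1) = ∑ z, w z * Zr W (cfg η ω) T z := by ring
  rw [h2]

end Pool.Agent.H357.CW
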